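import Pool.Agent.U293.CJ.Color
import Pool.Agent.U293.CJ.Real

/-!
# Induced subcomplexes of canonical join complexes

The class of the canonical join complexes of finite semidistributive lattices is not closed under
induced subcomplexes.

* For every finite graph `G` on a linearly ordered set, the complex of the independent sets of `G`
  is an induced subcomplex of the canonical join complex of a finite semidistributive lattice
  (`Lat (GR G)`, the unions of the sets `out x` for a relation on the vertices and edges of `G`).
* If `G` is triangle-free and the complex of the independent sets of `G` is itself (isomorphic to)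
  the canonical join complex of a finite semidistributive lattice, then `G` is 3-colourable
  (sources, sinks and the other elements of the relation `i ≰ κ(j)`).

The Groetzsch graph is triangle-free and not 3-colourable.
-/

set_option autoImplicit false

namespace Pool.Agent.Results.MP_b1aa48_co.NotInduced

open Pool.Agent.U293.CJ

/-- the edges of the Groetzsch graph: a 5-cycle on `0, ..., 4`, the vertex `5 + i` is joined to the
two neighbours of `i` in the cycle, the vertex `10` is joined to `5, ..., 9` -/
def edges : List (ℕ × ℕ) :=
  [(0, 1), (1, 2), (2, 3), (3, 4), (4, 0), (5, 1), (5, 4), (6, 0), (6, 2), (7, 1), (7, 3),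
    (8, 2), (8, 4), (9, 3), (9, 0), (10, 5), (10, 6), (10, 7), (10, 8), (10, 9)]

/-- the Groetzsch graph -/
def groetzsch : SimpleGraph (Fin 11) where
  Adj a b := (a.val, b.val) ∈ edges ∨ (b.val, a.val) ∈ edges
  symm := ⟨fun _ _ h => h.symm⟩
  loopless := ⟨fun a => by revert a; decide⟩

instance : DecidableRel groetzsch.Adj := fun a b =>
  inferInstanceAs (Decidable ((a.val, b.val) ∈ edges ∨ (b.val, a.val) ∈ edges))

theorem triangle_free : ∀ a b c, groetzsch.Adj a b → groetzsch.Adj b c → ¬ groetzsch.Adj a c := by
  decide

theorem no_two_coloring (a x0 x1 x2 x3 x4 : Fin 3) (h0 : x0 ≠ a) (h1 : x1 ≠ a) (h2 : x2 ≠ a)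
    (h3 : x3 ≠ a) (h4 : x4 ≠ a) (h01 : x0 ≠ x1) (h12 : x1 ≠ x2) (h23 : x2 ≠ x3) (h34 : x3 ≠ x4)
    (h40 : x4 ≠ x0) : False := by
  omega

theorem not_three_colorable : IsEmpty (groetzsch.Coloring (Fin 3)) := by
  refine ⟨fun c => ?_⟩
  have hc : ∀ u v, groetzsch.Adj u v → c u ≠ c v := fun u v h => c.valid h
  have key : ∀ i u j v : Fin 11, groetzsch.Adj i j → groetzsch.Adj u j → groetzsch.Adj i v →
      (if c i = c 10 then c u else c i) ≠ (if c j = c 10 then c v else c j) := by
    intro i u j v h1 h2 h3
    by_cases e1 : c i = c 10
    · rw [if_pos e1, if_neg (fun e2 => hc i j h1 (e1.trans e2.symm))]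
      exact hc u j h2
    · rw [if_neg e1]
      by_cases e2 : c j = c 10
      · rw [if_pos e2]
        exact hc i v h3
      · rw [if_neg e2]
        exact hc i j h1
  have ha : ∀ i u : Fin 11, groetzsch.Adj u 10 → (if c i = c 10 then c u else c i) ≠ c 10 := by
    intro i u h
    by_cases e1 : c i = c 10
    · rw [if_pos e1]
      exact hc u 10 h
    · rw [if_neg e1]
      exact e1
  exact no_two_coloring (c 10) _ _ _ _ _
    (ha 0 5 (by decide)) (ha 1 6 (by decide)) (ha 2 7 (by decide)) (ha 3 8 (by decide))
    (ha 4 9 (by decide))
    (key 0 5 1 6 (by decide) (by decide) (by decide))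
    (key 1 6 2 7 (by decide) (by decide) (by decide))
    (key 2 7 3 8 (by decide) (by decide) (by decide))
    (key 3 8 4 9 (by decide) (by decide) (by decide))
    (key 4 9 0 5 (by decide) (by decide) (by decide))

/-- **The class of the canonical join complexes of finite semidistributive lattices is not closed
under taking induced subcomplexes**: it is not true that for every finite semidistributive lattice
`L` and every set `W` of join-irreducible elements of `L` there are a finite semidistributive lattice
`L'` and a bijection `e` of `W` with the set of the join-irreducible elements of `L'` such that a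
subset of `W` is a face of the canonical join complex of `L` if and only if its image is a face of the
canonical join complex of `L'`. -/
theorem result : ¬ ∀ (L : Type) [Lattice L] [Finite L], IsSemidistributive L →
    ∀ W : Set L, (∀ j ∈ W, SupIrred j) →
      ∃ (L' : Type) (_ : Lattice L') (_ : Finite L'), IsSemidistributive L' ∧
        ∃ e : W ≃ {j : L' // SupIrred j},
          ∀ A : Set W, Face (Subtype.val '' A : Set L) ↔ Face ((fun a => (e a).1) '' A : Set L') := by
  intro h
  have hR := good_GR groetzsch
  let f : Fin 11 → Lat (GR groetzsch) := fun v => Lat.o (Sum.inl v)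
  have hf : Function.Injective f := fun u v huv => Sum.inl_injective (Lat.o_inj hR huv)
  obtain ⟨L', _, _, hL', e, he⟩ := h (Lat (GR groetzsch)) (Lat.semidistributive hR) (Set.range f)
    (by
      rintro _ ⟨v, rfl⟩
      exact Lat.supIrred_o hR _)
  let g : Fin 11 ≃ Set.range f := Equiv.ofInjective f hf
  have hg : ∀ v, (g v).1 = f v := fun v => rfl
  refine not_three_colorable.elim (three_colorable hL' groetzsch triangle_free (g.trans e) ?_).some
  intro u v huv
  have h1 := he {g u, g v}
  rw [Set.image_pair, Set.image_pair] at h1
  have h2 : ((fun a => (e a).1) (g u), (fun a => (e a).1) (g v)) =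
    (((g.trans e) u).1, ((g.trans e) v).1) := rfl
  show Face ({(fun a => (e a).1) (g u), (fun a => (e a).1) (g v)} : Set L') ↔ _
  rw [← h1, hg, hg]
  have h3 : ({f u, f v} : Set (Lat (GR groetzsch))) = Lat.o '' {Sum.inl u, Sum.inl v} := by
    rw [Set.image_pair]
  rw [h3, Lat.face_iff hR]
  constructor
  · intro h4 hadj
    rcases lt_or_gt_of_ne huv with hlt | hlt
    · exact h4 (Sum.inl u) (by simp) (Sum.inl v) (by simp) (fun h => huv (Sum.inl_injective h))
        (Or.inr ⟨hlt, hadj⟩)
    · exact h4 (Sum.inl v) (by simp) (Sum.inl u) (by simp)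
        (fun h => huv (Sum.inl_injective h).symm) (Or.inr ⟨hlt, hadj.symm⟩)
  · intro h4 x hx y hy hxy hxy'
    have h5 : ∀ a b : Fin 11, ¬ groetzsch.Adj a b → a ≠ b →
        ¬ GR groetzsch (Sum.inl a) (Sum.inl b) := by
      intro a b h5 h6 h7
      rcases h7 with h7 | h7
      · exact h6 h7
      · exact h5 h7.2
    rcases hx with rfl | hx <;> rcases hy with rfl | hy
    · exact hxy rfl
    · rw [Set.mem_singleton_iff] at hy
      subst hy
      exact h5 u v h4 huv hxy'
    · rw [Set.mem_singleton_iff] at hx
      subst hx
      exact h5 v u (fun h => h4 h.symm) huv.symm hxy'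
    · rw [Set.mem_singleton_iff] at hx hy
      exact hxy (hx.trans hy.symm)

end Pool.Agent.Results.MP_b1aa48_co.NotInduced
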